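import Pool.Agent.U540.PT.Stm

/-!
# Project PT, package BLA: two inequalities for the Bell numbers (numbers of setoids)
-/

set_option autoImplicit false

namespace Pool.Agent.U540.PT

namespace BLAAux

theorem finite_setoid (α : Type) [Finite α] : Finite (Setoid α) :=
  Finite.of_injective (fun s : Setoid α => fun a b : α => s a b) fun s t h => by
    ext a b
    exact iff_of_eq (congrFun (congrFun h a) b)

open Classical in
/-- An element equivalent to the last one. -/
noncomputable def rep (k : ℕ) (s : Setoid (Fin (k + 1))) : Fin (k + 1) :=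
  if h : ∃ i : Fin k, s i.castSucc (Fin.last k) then h.choose.castSucc else Fin.last k

theorem rep_rel (k : ℕ) (s : Setoid (Fin (k + 1))) : s (rep k s) (Fin.last k) := by
  unfold rep
  split_ifs with h
  · exact h.choose_spec
  · exact s.refl' _

theorem rep_last (k : ℕ) (s : Setoid (Fin (k + 1))) (h : rep k s = Fin.last k) (i : Fin k) :
    ¬ s i.castSucc (Fin.last k) := by
  intro hi
  have hex : ∃ i : Fin k, s i.castSucc (Fin.last k) := ⟨i, hi⟩
  unfold rep at h
  rw [dif_pos hex] at h
  exact (Fin.castSucc_lt_last _).ne h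

theorem inj (k : ℕ) : Function.Injective
    (fun s : Setoid (Fin (k + 1)) => (rep k s, s.comap (Fin.castSucc : Fin k → Fin (k + 1)))) := by
  intro s t hst
  have h1 : rep k s = rep k t := congrArg Prod.fst hst
  have h2 : s.comap (Fin.castSucc : Fin k → Fin (k + 1)) = t.comap Fin.castSucc :=
    congrArg Prod.snd hst
  have h3 : ∀ i j : Fin k, s i.castSucc j.castSucc ↔ t i.castSucc j.castSucc := by
    intro i j
    have := congrArg (fun u : Setoid (Fin k) => u i j) h2
    simpa [Setoid.comap_rel] using iff_of_eq this
  have h4 : ∀ i : Fin k, s i.castSucc (Fin.last k) ↔ t i.castSucc (Fin.last k) := by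
    intro i
    by_cases hl : rep k s = Fin.last k
    · exact iff_of_false (rep_last k s hl i) (rep_last k t (h1 ▸ hl) i)
    · obtain ⟨j, hj⟩ := Fin.exists_castSucc_eq.2 hl
      have hs : s j.castSucc (Fin.last k) := by rw [hj]; exact rep_rel k s
      have ht : t j.castSucc (Fin.last k) := by rw [hj, h1]; exact rep_rel k t
      constructor
      · intro h
        exact t.trans' ((h3 i j).1 (s.trans' h (s.symm' hs))) ht
      · intro h
        exact s.trans' ((h3 i j).2 (t.trans' h (t.symm' ht))) hs
  ext a b
  refine Fin.lastCases ?_ (fun i => ?_) a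
  · refine Fin.lastCases ?_ (fun j => ?_) b
    · exact iff_of_true (s.refl' _) (t.refl' _)
    · exact ⟨fun h => t.symm' ((h4 j).1 (s.symm' h)), fun h => s.symm' ((h4 j).2 (t.symm' h))⟩
  · refine Fin.lastCases ?_ (fun j => ?_) b
    · exact h4 i
    · exact h3 i j

theorem inj2 (k : ℕ) : Function.Injective
    (fun f : Fin k → Fin 16 => Setoid.ker (Fin.append f (id : Fin 16 → Fin 16))) := by
  intro f g hfg
  funext i
  have h := congrArg (fun u : Setoid (Fin (k + 16)) => u (Fin.castAdd 16 i) (Fin.natAdd k (f i))) hfg
  have h' : (Fin.append f (id : Fin 16 → Fin 16) (Fin.castAdd 16 i)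
      = Fin.append f id (Fin.natAdd k (f i))) =
      (Fin.append g (id : Fin 16 → Fin 16) (Fin.castAdd 16 i)
      = Fin.append g id (Fin.natAdd k (f i))) := h
  rw [Fin.append_left, Fin.append_right, Fin.append_left, Fin.append_right] at h'
  have h'' := (iff_of_eq h').1 rfl
  exact h''.symm

end BLAAux

theorem BLA_ok : S_BLA := by
  constructor
  · intro k
    have := BLAAux.finite_setoid (Fin k)
    have h := Nat.card_le_card_of_injective _ (BLAAux.inj k)
    rw [Nat.card_prod, Nat.card_fin] at h
    exact h
  · intro k
    have := BLAAux.finite_setoid (Fin (k + 16))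
    have h := Nat.card_le_card_of_injective _ (BLAAux.inj2 k)
    rw [Nat.card_fun, Nat.card_fin, Nat.card_fin] at h
    exact h

end Pool.Agent.U540.PT

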