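import Pool.Agent.U540.PT.Stm

/-!
# Project PT, package HARD (helper637)
-/

set_option autoImplicit false

namespace Pool.Agent.U540.PT

open Pool.Agent.W994.AR

namespace HARDAux

section

variable {B ι : Type} {ar : ι → ℕ} {𝔸 : Str ι ar B} {X : Type}

/-- the pairs for which equality is allowed -/
def Wk (x0 x1 x2 a b : X) : Prop :=
  (a = x0 ∧ b = x1) ∨ (a = x1 ∧ b = x0) ∨ (a = x1 ∧ b = x2) ∨ (a = x2 ∧ b = x1)

/-- the condition for one pair -/
def Cd (E : B → B → Prop) (x0 x1 x2 : X) (z : X × X) : Set (X → B) :=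
  {e | z.1 ≠ z.2 → (Wk x0 x1 x2 z.1 z.2 → e z.1 = e z.2 ∨ E (e z.1) (e z.2)) ∧
    (¬ Wk x0 x1 x2 z.1 z.2 → E (e z.1) (e z.2))}

def TT (E : B → B → Prop) {k : ℕ} (R : Set (Fin k → B)) (c : Fin k → X) (x0 x1 x2 : X) :
    Set (X → B) := {e | ∀ z ∈ (Set.univ : Set (X × X)), e ∈ Cd E x0 x1 x2 z} ∩ {e | e ∘ c ∈ R}

def S3 (E : B → B → Prop) {k : ℕ} (R : Set (Fin k → B)) (c : Fin k → X) (x0 x1 x2 : X)
    (x y z : B) : Prop :=
  ∃ e : X → B, e ∈ TT E R c x0 x1 x2 ∧ e x0 = x ∧ e x1 = y ∧ e x2 = z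

theorem pp_two {D : B → B → Prop} (h : PP 𝔸 {v : Fin 2 → B | D (v 0) (v 1)}) {V : Type}
    (a b : V) : PP 𝔸 {z : V → B | D (z a) (z b)} :=
  h.subst ![a, b]

theorem pp_TT [Finite X] {E : B → B → Prop} (hE : PP 𝔸 {v : Fin 2 → B | E (v 0) (v 1)})
    (hE' : PP 𝔸 {v : Fin 2 → B | v 0 = v 1 ∨ E (v 0) (v 1)}) {k : ℕ} {R : Set (Fin k → B)}
    (hR : PP 𝔸 R) (c : Fin k → X) (x0 x1 x2 : X) : PP 𝔸 (TT E R c x0 x1 x2) := by
  classical
  refine PP.inter (PP.iInter Set.univ Set.finite_univ (Cd E x0 x1 x2) fun z _ => ?_) (hR.subst c)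
  by_cases h1 : z.1 = z.2
  · have : Cd E x0 x1 x2 z = Set.univ := by
      ext e
      simp [Cd, h1]
    rw [this]
    exact PP.univ
  · by_cases h2 : Wk x0 x1 x2 z.1 z.2
    · have : Cd E x0 x1 x2 z = {e : X → B | e z.1 = e z.2 ∨ E (e z.1) (e z.2)} := by
        ext e
        simp [Cd, h1, h2]
      rw [this]
      exact pp_two (D := fun a b => a = b ∨ E a b) hE' z.1 z.2
    · have : Cd E x0 x1 x2 z = {e : X → B | E (e z.1) (e z.2)} := by
        ext e
        simp [Cd, h1, h2]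
      rw [this]
      exact pp_two hE z.1 z.2

theorem pp_S3 [Finite X] {E : B → B → Prop} (hE : PP 𝔸 {v : Fin 2 → B | E (v 0) (v 1)})
    (hE' : PP 𝔸 {v : Fin 2 → B | v 0 = v 1 ∨ E (v 0) (v 1)}) {k : ℕ} {R : Set (Fin k → B)}
    (hR : PP 𝔸 R) (c : Fin k → X) (x0 x1 x2 : X) :
    PP 𝔸 {v : Fin 3 → B | S3 E R c x0 x1 x2 (v 0) (v 1) (v 2)} := by
  have h1 : PP 𝔸 ({z : Fin 3 ⊕ X → B | z ∘ Sum.inr ∈ TT E R c x0 x1 x2} ∩
      ({z : Fin 3 ⊕ X → B | z (Sum.inr x0) = z (Sum.inl 0)} ∩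
      ({z : Fin 3 ⊕ X → B | z (Sum.inr x1) = z (Sum.inl 1)} ∩
      {z : Fin 3 ⊕ X → B | z (Sum.inr x2) = z (Sum.inl 2)}))) :=
    ((pp_TT hE hE' hR c x0 x1 x2).subst Sum.inr).inter
      ((PP.eq _ _).inter ((PP.eq _ _).inter (PP.eq _ _)))
  exact h1.ex

theorem pp_three {D : B → B → B → Prop} (h : PP 𝔸 {v : Fin 3 → B | D (v 0) (v 1) (v 2)})
    {V : Type} (a b c : V) : PP 𝔸 {z : V → B | D (z a) (z b) (z c)} :=
  h.subst ![a, b, c]

/-- consequences -/
theorem S3_imp {E : B → B → Prop} {k : ℕ} {R : Set (Fin k → B)} {c : Fin k → X} {x0 x1 x2 : X}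
    (hmiss : ∀ e : X → B, (∀ a b, a ≠ b → E (e a) (e b)) → e ∘ c ∉ R) {x y z : B}
    (h : S3 E R c x0 x1 x2 x y z) : y = x ∨ y = z := by
  obtain ⟨e, ⟨he, heR⟩, rfl, rfl, rfl⟩ := h
  by_contra hcon
  push Not at hcon
  refine hmiss e (fun a b hab => ?_) heR
  have h1 := he (a, b) (Set.mem_univ _) hab
  by_cases hw : Wk x0 x1 x2 a b
  · rcases h1.1 hw with h2 | h2
    · exfalso
      change e a = e b at h2
      rcases hw with ⟨rfl, rfl⟩ | ⟨rfl, rfl⟩ | ⟨rfl, rfl⟩ | ⟨rfl, rfl⟩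
      · exact hcon.1 h2.symm
      · exact hcon.1 h2
      · exact hcon.2 h2
      · exact hcon.2 h2.symm
    · exact h2
  · exact h1.2 hw

/-- an assignment along the clique -/
theorem exists_idx [Finite X] (x0 x1 x2 : X) (h01 : x0 ≠ x1) (h12 : x1 ≠ x2) (h02 : x0 ≠ x2)
    (i0 i1 i2 : ℕ) : ∃ f : X → ℕ, f x0 = i0 ∧ f x1 = i1 ∧ f x2 = i2 ∧
      ∀ a b, a ≠ b → f a = f b →
        (a = x0 ∨ a = x1 ∨ a = x2) ∧ (b = x0 ∨ b = x1 ∨ b = x2) := by
  classical
  obtain ⟨m, ⟨φ⟩⟩ := Finite.exists_equiv_fin X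
  let f : X → ℕ := fun y => if y = x0 then i0 else if y = x1 then i1 else if y = x2 then i2 else
    i0 + i1 + i2 + 1 + (φ y : ℕ)
  have hf0 : f x0 = i0 := by simp [f]
  have hf1 : f x1 = i1 := by simp [f, h01.symm]
  have hf2 : f x2 = i2 := by simp [f, h02.symm, h12.symm]
  have hfy : ∀ y, ¬ (y = x0 ∨ y = x1 ∨ y = x2) → f y = i0 + i1 + i2 + 1 + (φ y : ℕ) := by
    intro y hy
    push Not at hy
    simp [f, hy.1, hy.2.1, hy.2.2]
  have hle : ∀ y, (y = x0 ∨ y = x1 ∨ y = x2) → f y ≤ i0 + i1 + i2 := by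
    rintro y (rfl | rfl | rfl)
    · rw [hf0]; omega
    · rw [hf1]; omega
    · rw [hf2]; omega
  refine ⟨f, hf0, hf1, hf2, fun a b hab hfab => ?_⟩
  by_cases ha : a = x0 ∨ a = x1 ∨ a = x2
  · by_cases hb : b = x0 ∨ b = x1 ∨ b = x2
    · exact ⟨ha, hb⟩
    · exfalso
      have h1 := hle a ha
      have h2 := hfy b hb
      omega
  · exfalso
    have h2 := hfy a ha
    by_cases hb : b = x0 ∨ b = x1 ∨ b = x2
    · have h1 := hle b hb
      omega
    · have h3 := hfy b hb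
      have h4 : (φ a : ℕ) = φ b := by omega
      exact hab (φ.injective (Fin.ext h4))

end

end HARDAux

open HARDAux

theorem HARD_ok : S_HARD := by
  classical
  intro B ι ar 𝔸 E hs hir hE hE' J hJ k R hR X _ c x0 x1 x2 h01 h12 h02 hmiss hp01 hp12
  -- the two present identifications
  have hA : ∀ i j, i ≠ j → S3 E R c x0 x1 x2 (J i) (J i) (J j) := by
    intro i j hij
    obtain ⟨f, hf0, hf1, hf2, hf⟩ := exists_idx x0 x1 x2 h01 h12 h02 i i j
    have hcl : ∀ a b, a ≠ b → ¬ (a = x0 ∧ b = x1) → ¬ (a = x1 ∧ b = x0) →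
        E (J (f a)) (J (f b)) := by
      intro a b hab ha hb
      refine hJ _ _ fun hfab => ?_
      obtain ⟨h1, h2⟩ := hf a b hab hfab
      rcases h1 with rfl | rfl | rfl <;> rcases h2 with rfl | rfl | rfl
      · exact hab rfl
      · exact ha ⟨rfl, rfl⟩
      · rw [hf0, hf2] at hfab; exact hij hfab
      · exact hb ⟨rfl, rfl⟩
      · exact hab rfl
      · rw [hf1, hf2] at hfab; exact hij hfab
      · rw [hf2, hf0] at hfab; exact hij hfab.symm
      · rw [hf2, hf1] at hfab; exact hij hfab.symm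
      · exact hab rfl
    refine ⟨fun y => J (f y), ⟨fun z _ hz => ⟨fun _ => ?_, fun hw => ?_⟩, ?_⟩, ?_, ?_, ?_⟩
    · by_cases h1 : (z.1 = x0 ∧ z.2 = x1) ∨ (z.1 = x1 ∧ z.2 = x0)
      · left
        rcases h1 with ⟨h1, h2⟩ | ⟨h1, h2⟩
        · simp only [h1, h2, hf0, hf1]
        · simp only [h1, h2, hf0, hf1]
      · right
        exact hcl _ _ hz (fun h => h1 (Or.inl h)) (fun h => h1 (Or.inr h))
    · exact hcl _ _ hz (fun h => hw (Or.inl h)) (fun h => hw (Or.inr (Or.inl h)))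
    · refine hp01 (fun y => J (f y)) ?_ hcl
      simp only [hf0, hf1]
    · simp only [hf0]
    · simp only [hf1]
    · simp only [hf2]
  have hB : ∀ i j, i ≠ j → S3 E R c x0 x1 x2 (J i) (J j) (J j) := by
    intro i j hij
    obtain ⟨f, hf0, hf1, hf2, hf⟩ := exists_idx x0 x1 x2 h01 h12 h02 i j j
    have hcl : ∀ a b, a ≠ b → ¬ (a = x1 ∧ b = x2) → ¬ (a = x2 ∧ b = x1) →
        E (J (f a)) (J (f b)) := by
      intro a b hab ha hb
      refine hJ _ _ fun hfab => ?_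
      obtain ⟨h1, h2⟩ := hf a b hab hfab
      rcases h1 with rfl | rfl | rfl <;> rcases h2 with rfl | rfl | rfl
      · exact hab rfl
      · rw [hf0, hf1] at hfab; exact hij hfab
      · rw [hf0, hf2] at hfab; exact hij hfab
      · rw [hf1, hf0] at hfab; exact hij hfab.symm
      · exact hab rfl
      · exact ha ⟨rfl, rfl⟩
      · rw [hf2, hf0] at hfab; exact hij hfab.symm
      · exact hb ⟨rfl, rfl⟩
      · exact hab rfl
    refine ⟨fun y => J (f y), ⟨fun z _ hz => ⟨fun _ => ?_, fun hw => ?_⟩, ?_⟩, ?_, ?_, ?_⟩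
    · by_cases h1 : (z.1 = x1 ∧ z.2 = x2) ∨ (z.1 = x2 ∧ z.2 = x1)
      · left
        rcases h1 with ⟨h1, h2⟩ | ⟨h1, h2⟩
        · simp only [h1, h2, hf1, hf2]
        · simp only [h1, h2, hf1, hf2]
      · right
        exact hcl _ _ hz (fun h => h1 (Or.inl h)) (fun h => h1 (Or.inr h))
    · exact hcl _ _ hz (fun h => hw (Or.inr (Or.inr (Or.inl h))))
        (fun h => hw (Or.inr (Or.inr (Or.inr h))))
    · refine hp12 (fun y => J (f y)) ?_ hcl
      simp only [hf1, hf2]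
    · simp only [hf0]
    · simp only [hf1]
    · simp only [hf2]
  set S := S3 E R c x0 x1 x2 with hS
  have hSpp : PP 𝔸 {v : Fin 3 → B | S (v 0) (v 1) (v 2)} := pp_S3 hE hE' hR c x0 x1 x2
  have hSimp : ∀ x y z, S x y z → y = x ∨ y = z := fun x y z h => S3_imp hmiss h
  -- the relation
  let Q : Set (Fin 4 ⊕ Fin 4 → B) := {z | z (Sum.inl 0) = z (Sum.inr 0)} ∩
    ({z | z (Sum.inl 1) = z (Sum.inr 1)} ∩ ({z | z (Sum.inl 2) = z (Sum.inr 2)} ∩
    ({z | E (z (Sum.inl 3)) (z (Sum.inr 3))} ∩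
    {z | ∃ u : Fin 2 → B, Sum.elim z u ∈
      {t : (Fin 4 ⊕ Fin 4) ⊕ Fin 2 → B |
        S (t (Sum.inl (Sum.inl 0))) (t (Sum.inr 0)) (t (Sum.inl (Sum.inl 1)))} ∩
      ({t : (Fin 4 ⊕ Fin 4) ⊕ Fin 2 → B |
        S (t (Sum.inr 0)) (t (Sum.inl (Sum.inl 3))) (t (Sum.inl (Sum.inl 2)))} ∩
      ({t : (Fin 4 ⊕ Fin 4) ⊕ Fin 2 → B |
        S (t (Sum.inl (Sum.inl 0))) (t (Sum.inr 1)) (t (Sum.inl (Sum.inl 1)))} ∩
      {t : (Fin 4 ⊕ Fin 4) ⊕ Fin 2 → B |
        S (t (Sum.inr 1)) (t (Sum.inl (Sum.inr 3))) (t (Sum.inl (Sum.inl 2)))}))})))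
  have hQ : PP 𝔸 Q :=
    (PP.eq _ _).inter ((PP.eq _ _).inter ((PP.eq _ _).inter ((pp_two hE _ _).inter
      (((pp_three hSpp _ _ _).inter ((pp_three hSpp _ _ _).inter
        ((pp_three hSpp _ _ _).inter (pp_three hSpp _ _ _)))).ex))))
  refine ⟨4, Q, by norm_num, hQ.toPPDef, ⟨fun i => ![J 0, J 1, J 2, J (i : ℕ)], ?_⟩, ?_⟩
  · intro i j hij
    have hij' : (i : ℕ) ≠ j := fun h => hij (Fin.ext h)
    have hw : ∀ i : Fin 3, ∃ w, S (J 0) w (J 1) ∧ S w (J (i : ℕ)) (J 2) := by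
      intro i
      fin_cases i
      · exact ⟨J 0, hA 0 1 (by norm_num), hA 0 2 (by norm_num)⟩
      · exact ⟨J 1, hB 0 1 (by norm_num), hA 1 2 (by norm_num)⟩
      · exact ⟨J 0, hA 0 1 (by norm_num), hB 0 2 (by norm_num)⟩
    obtain ⟨w, hw1, hw2⟩ := hw i
    obtain ⟨w', hw1', hw2'⟩ := hw j
    exact ⟨rfl, rfl, rfl, hJ _ _ hij', ![w, w'], hw1, hw2, hw1', hw2'⟩
  · refine ⟨fun x => if x 3 = x 0 then 0 else if x 3 = x 1 then 1 else 2, ?_⟩
    rintro x y ⟨h0, h1, h2, h3, u, hu1, hu2, hu3, hu4⟩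
    change x 0 = y 0 at h0
    change x 1 = y 1 at h1
    change x 2 = y 2 at h2
    change E (x 3) (y 3) at h3
    change S (x 0) (u 0) (x 1) at hu1
    change S (u 0) (x 3) (x 2) at hu2
    change S (x 0) (u 1) (x 1) at hu3
    change S (u 1) (y 3) (x 2) at hu4
    have hne : x 3 ≠ y 3 := by
      intro h
      rw [h] at h3
      exact hir _ h3
    have hx : x 3 = x 0 ∨ x 3 = x 1 ∨ x 3 = x 2 := by
      rcases hSimp _ _ _ hu2 with h | h
      · rcases hSimp _ _ _ hu1 with h' | h'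
        · left; rw [h, h']
        · right; left; rw [h, h']
      · right; right; exact h
    have hy : y 3 = x 0 ∨ y 3 = x 1 ∨ y 3 = x 2 := by
      rcases hSimp _ _ _ hu4 with h | h
      · rcases hSimp _ _ _ hu3 with h' | h'
        · left; rw [h, h']
        · right; left; rw [h, h']
      · right; right; exact h
    simp only [← h0, ← h1]
    intro heq
    by_cases a1 : x 3 = x 0
    · rw [if_pos a1] at heq
      by_cases b1 : y 3 = x 0
      · exact hne (a1.trans b1.symm)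
      · rw [if_neg b1] at heq
        by_cases b2 : y 3 = x 1
        · rw [if_pos b2] at heq
          exact absurd heq (by decide)
        · rw [if_neg b2] at heq
          exact absurd heq (by decide)
    · rw [if_neg a1] at heq
      by_cases a2 : x 3 = x 1
      · rw [if_pos a2] at heq
        by_cases b1 : y 3 = x 0
        · rw [if_pos b1] at heq
          exact absurd heq (by decide)
        · rw [if_neg b1] at heq
          by_cases b2 : y 3 = x 1
          · exact hne (a2.trans b2.symm)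
          · rw [if_neg b2] at heq
            exact absurd heq (by decide)
      · rw [if_neg a2] at heq
        by_cases b1 : y 3 = x 0
        · rw [if_pos b1] at heq
          exact absurd heq (by decide)
        · rw [if_neg b1] at heq
          by_cases b2 : y 3 = x 1
          · rw [if_pos b2] at heq
            exact absurd heq (by decide)
          · have hx2 : x 3 = x 2 := by tauto
            have hy2 : y 3 = x 2 := by tauto
            exact hne (hx2.trans hy2.symm)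

end Pool.Agent.U540.PT
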