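import Pool.Agent.U540.PT.Stm

/-!
# Project PT, package PRA (helper612): laws with absence probabilities in `[α, β]`
-/

set_option autoImplicit false

namespace Pool.Agent.U540.PT

open Finset
open Pool.Agent.N455.CS (IsLaw prob productLaw prob_eq prob_le IsLaw.sum)

namespace PRAAux

variable {Ω : Type} [DecidableEq Ω]

/-- absence probabilities in `[α, β]` -/
def AF (α β : ℝ) (μ : Finset Ω → ℝ) : Prop :=
  ∀ (R : Finset Ω) (o : Ω), α * (μ (insert o R) + μ (R.erase o)) ≤ μ (R.erase o) ∧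
    μ (R.erase o) ≤ β * (μ (insert o R) + μ (R.erase o))

theorem toggle {α β : ℝ} {μ : Finset Ω → ℝ} (hμ : AF α β μ) (o : Ω) (Y : Finset (Finset Ω))
    (hY : ∀ R, insert o R ∈ Y ↔ R.erase o ∈ Y) :
    α * ∑ R ∈ Y, μ R ≤ ∑ R ∈ Y.filter (fun R => o ∉ R), μ R ∧
      ∑ R ∈ Y.filter (fun R => o ∉ R), μ R ≤ β * ∑ R ∈ Y, μ R ∧
      (1 - β) * ∑ R ∈ Y, μ R ≤ ∑ R ∈ Y.filter (fun R => o ∈ R), μ R := by
  have h1 : ∑ R ∈ Y.filter (fun R => o ∈ R), μ R =
      ∑ R ∈ Y.filter (fun R => o ∉ R), μ (insert o R) := by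
    symm
    refine Finset.sum_nbij' (fun R => insert o R) (fun R => R.erase o) ?_ ?_ ?_ ?_ ?_
    · intro R hR
      obtain ⟨h2, h3⟩ := mem_filter.1 hR
      refine mem_filter.2 ⟨(hY R).2 ?_, mem_insert_self _ _⟩
      rwa [erase_eq_of_notMem h3]
    · intro R hR
      obtain ⟨h2, h3⟩ := mem_filter.1 hR
      refine mem_filter.2 ⟨(hY R).1 ?_, notMem_erase _ _⟩
      rwa [insert_eq_of_mem h3]
    · intro R hR
      exact erase_insert (mem_filter.1 hR).2
    · intro R hR
      exact insert_erase (mem_filter.1 hR).2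
    · intro R _
      rfl
  have h2 : ∑ R ∈ Y, μ R = ∑ R ∈ Y.filter (fun R => o ∉ R), (μ (insert o R) + μ (R.erase o)) := by
    rw [← Finset.sum_filter_add_sum_filter_not Y (fun R => o ∈ R), h1, ← Finset.sum_add_distrib]
    refine Finset.sum_congr rfl fun R hR => ?_
    rw [erase_eq_of_notMem (mem_filter.1 hR).2]
  have h3 : α * ∑ R ∈ Y, μ R ≤ ∑ R ∈ Y.filter (fun R => o ∉ R), μ R := by
    rw [h2, Finset.mul_sum]
    refine Finset.sum_le_sum fun R hR => ?_
    have h3 := (hμ R o).1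
    rwa [erase_eq_of_notMem (mem_filter.1 hR).2] at h3 ⊢
  have h4 : ∑ R ∈ Y.filter (fun R => o ∉ R), μ R ≤ β * ∑ R ∈ Y, μ R := by
    rw [h2, Finset.mul_sum]
    refine Finset.sum_le_sum fun R hR => ?_
    have h3 := (hμ R o).2
    rwa [erase_eq_of_notMem (mem_filter.1 hR).2] at h3 ⊢
  refine ⟨h3, h4, ?_⟩
  have h5 := Finset.sum_filter_add_sum_filter_not Y (fun R => o ∈ R) μ
  linarith

variable [Fintype Ω]

/-- the triple `w` has its first element absent, the other two present -/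
def Bad {κ : Type} (f : κ → Fin 3 → Ω) (w : κ) (R : Finset Ω) : Prop :=
  f w 0 ∉ R ∧ f w 1 ∈ R ∧ f w 2 ∈ R

instance {κ : Type} (f : κ → Fin 3 → Ω) (w : κ) (R : Finset Ω) : Decidable (Bad f w R) := by
  unfold Bad; infer_instance

theorem mem_toggle {x o : Ω} (h : x ≠ o) (R : Finset Ω) : x ∈ insert o R ↔ x ∈ R.erase o := by
  rw [mem_insert, mem_erase]
  simp [h]

theorem bad_toggle {κ : Type} {f : κ → Fin 3 → Ω} {w : κ} {o : Ω} (h : ∀ i, f w i ≠ o)
    (R : Finset Ω) : Bad f w (insert o R) ↔ Bad f w (R.erase o) := by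
  unfold Bad
  rw [mem_toggle (h 0), mem_toggle (h 1), mem_toggle (h 2)]

theorem count {κ : Type} [DecidableEq κ] {α β : ℝ} (hα : 0 ≤ α) (hαβ : α ≤ β) (hβ : β ≤ 1)
    {μ : Finset Ω → ℝ} (hμ0 : ∀ R, 0 ≤ μ R) (hμ : AF α β μ) (h1 : ∑ R, μ R = 1)
    (f : κ → Fin 3 → Ω) (hf : Function.Injective fun x : κ × Fin 3 => f x.1 x.2) (W : Finset κ) :
    ∑ R ∈ (Finset.univ : Finset (Finset Ω)).filter (fun R => ∀ w ∈ W, ¬ Bad f w R), μ R ≤
      Real.exp (-(α * (1 - β) ^ 2 * W.card)) := by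
  induction W using Finset.induction_on with
  | empty =>
    simp [h1]
  | insert w0 W hw0 ih =>
    obtain ⟨X, hX⟩ : ∃ X : Finset (Finset Ω), X = (Finset.univ : Finset (Finset Ω)).filter
      (fun R => ∀ w ∈ W, ¬ Bad f w R) := ⟨_, rfl⟩
    rw [← hX] at ih
    have hne : ∀ w ∈ W, ∀ i j, f w i ≠ f w0 j := by
      intro w hw i j h
      have h' : (w, i) = (w0, j) := hf (a₁ := (w, i)) (a₂ := (w0, j)) h
      have hww : w = w0 := congrArg Prod.fst h'
      exact hw0 (hww ▸ hw)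
    have hne2 : ∀ i j, i ≠ j → f w0 i ≠ f w0 j := by
      intro i j hij h
      have h' : (w0, i) = (w0, j) := hf (a₁ := (w0, i)) (a₂ := (w0, j)) h
      exact hij (congrArg Prod.snd h')
    have hXs : ∀ j R, insert (f w0 j) R ∈ X ↔ R.erase (f w0 j) ∈ X := by
      intro j R
      rw [hX, mem_filter, mem_filter]
      simp only [mem_univ, true_and]
      exact forall₂_congr fun w hw => not_congr (bad_toggle (fun i => hne w hw i j) R)
    have t1 := toggle hμ (f w0 0) X (hXs 0)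
    obtain ⟨Y, hY⟩ : ∃ Y : Finset (Finset Ω), Y = X.filter (fun R => f w0 0 ∉ R) := ⟨_, rfl⟩
    rw [← hY] at t1
    have hYs : ∀ j, j ≠ 0 → ∀ R, insert (f w0 j) R ∈ Y ↔ R.erase (f w0 j) ∈ Y := by
      intro j hj R
      rw [hY, mem_filter, mem_filter, hXs j R, mem_toggle (hne2 0 j (Ne.symm hj))]
    have t2 := toggle hμ (f w0 1) Y (hYs 1 (by decide))
    obtain ⟨V, hV⟩ : ∃ V : Finset (Finset Ω), V = Y.filter (fun R => f w0 1 ∈ R) := ⟨_, rfl⟩
    rw [← hV] at t2
    have hVs : ∀ R, insert (f w0 2) R ∈ V ↔ R.erase (f w0 2) ∈ V := by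
      intro R
      rw [hV, mem_filter, mem_filter, hYs 2 (by decide) R, mem_toggle (hne2 1 2 (by decide))]
    have t3 := toggle hμ (f w0 2) V hVs
    have hX0 : 0 ≤ ∑ R ∈ X, μ R := Finset.sum_nonneg fun R _ => hμ0 R
    have hβ' : 0 ≤ 1 - β := by linarith
    have key : α * (1 - β) ^ 2 * ∑ R ∈ X, μ R ≤ ∑ R ∈ V.filter (fun R => f w0 2 ∈ R), μ R := by
      have k1 := mul_le_mul_of_nonneg_left t1.1 hβ'
      have k2 := mul_le_mul_of_nonneg_left (k1.trans t2.2.2) hβ'
      calc α * (1 - β) ^ 2 * ∑ R ∈ X, μ R = (1 - β) * ((1 - β) * (α * ∑ R ∈ X, μ R)) := by ring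
        _ ≤ (1 - β) * ∑ R ∈ V, μ R := k2
        _ ≤ _ := t3.2.2
    have e1 : V.filter (fun R => f w0 2 ∈ R) = X.filter (fun R => Bad f w0 R) := by
      ext R
      rw [hV, hY, mem_filter, mem_filter, mem_filter, mem_filter]
      unfold Bad
      tauto
    have e2 : (Finset.univ : Finset (Finset Ω)).filter (fun R => ∀ w ∈ insert w0 W, ¬ Bad f w R) =
        X.filter (fun R => ¬ Bad f w0 R) := by
      ext R
      rw [hX, mem_filter, mem_filter, mem_filter]
      simp only [mem_univ, true_and, mem_insert, forall_eq_or_imp]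
      tauto
    have e3 := Finset.sum_filter_add_sum_filter_not X (fun R => Bad f w0 R) μ
    rw [e1] at key
    rw [e2, card_insert_of_notMem hw0]
    have e4 : ∑ R ∈ X.filter (fun R => ¬ Bad f w0 R), μ R ≤
        (1 - α * (1 - β) ^ 2) * ∑ R ∈ X, μ R := by linarith
    have e5 := Real.one_sub_le_exp_neg (α * (1 - β) ^ 2)
    calc _ ≤ (1 - α * (1 - β) ^ 2) * ∑ R ∈ X, μ R := e4
      _ ≤ Real.exp (-(α * (1 - β) ^ 2)) * ∑ R ∈ X, μ R := mul_le_mul_of_nonneg_right e5 hX0
      _ ≤ Real.exp (-(α * (1 - β) ^ 2)) * Real.exp (-(α * (1 - β) ^ 2 * W.card)) :=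
          mul_le_mul_of_nonneg_left ih (Real.exp_pos _).le
      _ = _ := by
          rw [← Real.exp_add]
          congr 1
          push_cast
          ring

end PRAAux

open PRAAux in
theorem PRA_ok : S_PRA := by
  classical
  intro Ω _ α β hα hαβ hβ μ hμ hA
  haveI := Fintype.ofFinite Ω
  have h0 := hμ.1
  have h1 : ∑ R : Finset Ω, μ (R : Set Ω) = 1 := IsLaw.sum hμ
  have hAF : AF α β (fun R : Finset Ω => μ (R : Set Ω)) := by
    intro R o
    have h := hA (R : Set Ω) o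
    simp only [Finset.coe_insert, Finset.coe_erase]
    exact h
  have hβ0 : 0 ≤ β := hα.trans hαβ
  have c1 : ∀ o, ∑ R ∈ (Finset.univ : Finset (Finset Ω)).filter (fun R => o ∉ R),
      μ (R : Set Ω) ≤ β := by
    intro o
    have t := (toggle hAF o Finset.univ (fun R => by simp)).2.1
    simp only [h1, mul_one] at t
    exact t
  refine ⟨?_, ?_, ?_⟩
  · intro o
    refine (prob_le h0 (Q := fun R : Finset Ω => o ∉ R) ?_).trans (c1 o)
    intro R hR
    simpa using hR
  · intro o o' hoo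
    have t := (toggle hAF o' ((Finset.univ : Finset (Finset Ω)).filter (fun R => o ∉ R))
      (fun R => by
        rw [mem_filter, mem_filter, mem_toggle hoo]
        simp)).2.1
    have t2 : β * ∑ R ∈ (Finset.univ : Finset (Finset Ω)).filter (fun R => o ∉ R),
      μ (R : Set Ω) ≤ β * β := mul_le_mul_of_nonneg_left (c1 o) hβ0
    rw [Finset.filter_filter] at t
    refine (prob_le h0 (Q := fun R : Finset Ω => o ∉ R ∧ o' ∉ R) ?_).trans ?_
    · intro R hR
      simpa using hR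
    · rw [pow_two]
      exact t.trans t2
  · intro κ _ f hf
    haveI := Fintype.ofFinite κ
    have t := count hα hαβ hβ (fun R => h0 _) hAF h1 f hf Finset.univ
    rw [Finset.card_univ, ← Nat.card_eq_fintype_card] at t
    refine (prob_le h0 (Q := fun R : Finset Ω => ∀ w ∈ (Finset.univ : Finset κ), ¬ Bad f w R) ?_).trans
      (le_trans (le_of_eq ?_) t)
    · intro R hR w _ hb
      refine hR w ?_
      unfold Bad at hb
      simpa using hb
    · refine Finset.sum_congr ?_ fun _ _ => rfl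
      ext R
      simp only [mem_filter]

end Pool.Agent.U540.PT
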