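import Pool.Agent.U540.PT.Stm

set_option autoImplicit false

/-!
# Project PT, package PRB: monotonicity, the union bound, and the product law
-/

namespace Pool.Agent.U540.PT

namespace PRBAux

open Pool.Agent.N455.CS
open scoped Classical

theorem prob_nn {Ω : Type} [Finite Ω] {μ : Set Ω → ℝ} (h : IsLaw μ) (P : Set Ω → Prop) :
    0 ≤ prob μ P := tsum_nonneg fun Θ => h.1 Θ.1

theorem prob_mono {Ω : Type} [Finite Ω] {μ : Set Ω → ℝ} (h : IsLaw μ) {P Q : Set Ω → Prop}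
    (hPQ : ∀ Θ, P Θ → Q Θ) : prob μ P ≤ prob μ Q := by
  have := Fintype.ofFinite Ω
  rw [prob_eq μ Q]
  exact prob_le h.1 fun R hR => hPQ _ hR

theorem prob_le_one {Ω : Type} [Finite Ω] {μ : Set Ω → ℝ} (h : IsLaw μ) (P : Set Ω → Prop) :
    prob μ P ≤ 1 := by
  have := Fintype.ofFinite Ω
  refine (prob_le h.1 (Q := fun _ => True) fun _ _ => trivial).trans (le_of_eq ?_)
  rw [Finset.filter_true_of_mem fun _ _ => trivial]
  exact h.sum

theorem prob_exists {Ω : Type} [Finite Ω] {μ : Set Ω → ℝ} (h : IsLaw μ) {κ : Type} [Fintype κ]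
    (P : κ → Set Ω → Prop) : prob μ (fun Θ => ∃ w, P w Θ) ≤ ∑ w, prob μ (P w) := by
  have := Fintype.ofFinite Ω
  rw [prob_eq, Finset.sum_congr rfl fun w _ => prob_eq μ (P w)]
  simp only [Finset.sum_filter]
  rw [Finset.sum_comm]
  refine Finset.sum_le_sum fun R _ => ?_
  have hnn : ∀ w ∈ (Finset.univ : Finset κ),
      0 ≤ if P w (R : Set Ω) then μ (R : Set Ω) else 0 := by
    intro w _
    split_ifs
    · exact h.1 _
    · exact le_rfl
  split_ifs with hc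
  · obtain ⟨w, hw⟩ := hc
    have h1 := Finset.single_le_sum hnn (Finset.mem_univ w)
    rw [if_pos hw] at h1
    exact h1
  · exact Finset.sum_nonneg hnn

theorem prob_or {Ω : Type} [Finite Ω] {μ : Set Ω → ℝ} (h : IsLaw μ) (P Q : Set Ω → Prop) :
    prob μ (fun Θ => P Θ ∨ Q Θ) ≤ prob μ P + prob μ Q := by
  have h1 := prob_exists h (fun b : Bool => if b then P else Q)
  rw [Fintype.sum_bool] at h1
  refine (prob_mono h fun Θ hΘ => ?_).trans h1
  rcases hΘ with hΘ | hΘ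
  · exact ⟨true, hΘ⟩
  · exact ⟨false, hΘ⟩

theorem product_abs {Ω : Type} [Finite Ω] (ε : ℝ) (h0 : 0 ≤ ε) (h1 : ε ≤ 1) :
    Abs ε ε (productLaw (fun _ : Ω => 1 - ε)) := by
  have := Fintype.ofFinite Ω
  have hprod : ∀ Θ : Set Ω, productLaw (fun _ : Ω => 1 - ε) Θ = ∏ o, fac (fun _ => 1 - ε) Θ o :=
    fun Θ => finprod_eq_prod_of_fintype _
  have hmem : ∀ (Θ : Set Ω) (o : Ω), o ∈ Θ → fac (fun _ => 1 - ε) Θ o = 1 - ε :=
    fun Θ o h => if_pos h
  have hnmem : ∀ (Θ : Set Ω) (o : Ω), o ∉ Θ → fac (fun _ => 1 - ε) Θ o = 1 - (1 - ε) :=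
    fun Θ o h => if_neg h
  intro Θ o
  have hsplit : ∀ Θ' : Set Ω, productLaw (fun _ : Ω => 1 - ε) Θ' =
      fac (fun _ => 1 - ε) Θ' o * ∏ x ∈ Finset.univ.erase o, fac (fun _ => 1 - ε) Θ' x :=
    fun Θ' => by rw [hprod, ← Finset.mul_prod_erase _ _ (Finset.mem_univ o)]
  have h2 : ∏ x ∈ Finset.univ.erase o, fac (fun _ => 1 - ε) (insert o Θ) x =
      ∏ x ∈ Finset.univ.erase o, fac (fun _ => 1 - ε) (Θ \ {o}) x := by
    refine Finset.prod_congr rfl fun x hx => ?_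
    have hxo : x ≠ o := Finset.ne_of_mem_erase hx
    by_cases h : x ∈ Θ
    · rw [hmem _ _ (Set.mem_insert_of_mem _ h), hmem (Θ \ {o}) x ⟨h, hxo⟩]
    · rw [hnmem _ _ (fun h' => (Set.mem_insert_iff.1 h').elim hxo h), hnmem _ _ (fun h' => h h'.1)]
  rw [hsplit, hsplit, h2, hmem _ _ (Set.mem_insert _ _), hnmem (Θ \ {o}) o (fun h => h.2 rfl)]
  constructor
  · refine le_of_eq ?_
    ring
  · refine le_of_eq ?_
    ring

end PRBAux

open Pool.Agent.N455.CS (product_law) in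
theorem PRB_ok : S_PRB := by
  refine ⟨fun Ω _ μ h => ⟨fun P => ⟨PRBAux.prob_nn h P, PRBAux.prob_le_one h P⟩,
    fun P Q hPQ => PRBAux.prob_mono h hPQ, fun P Q => PRBAux.prob_or h P Q,
    fun κ _ P b hb => ?_⟩, fun Ω _ ε h0 h1 => ⟨?_, PRBAux.product_abs ε h0 h1⟩⟩
  · have := Fintype.ofFinite κ
    refine (PRBAux.prob_exists h P).trans ((Finset.sum_le_sum fun w _ => hb w).trans (le_of_eq ?_))
    rw [Finset.sum_const, Finset.card_univ, nsmul_eq_mul, Nat.card_eq_fintype_card]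
  · exact (product_law (fun _ : Ω => 1 - ε) 0 le_rfl fun o => ⟨by linarith, by linarith⟩).1

end Pool.Agent.U540.PT
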