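import Pool.Agent.U540.PT.Trip

/-!
# Assembly: bounds for random templates of every density
-/

set_option autoImplicit false

namespace Pool.Agent.U540.PT

open Pool.Agent.W994.AR Pool.Agent.U540.BP
open Pool.Agent.N455.CS (IsLaw prob productLaw)

variable {B : Type} {G : Subgroup (Equiv.Perm B)} {E : B → B → Prop}

theorem b1 (hPRA : S_PRA) (hPRB : S_PRB) (h : CliqueType G E) {ι : Type} {arΓ : ι → ℕ}
    (Γ : Str ι arΓ B) (hΓ : ∀ l, Invar G (Γ l))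
    (hΓE : ∀ l (v : Fin (arΓ l) → B), NC v → (∀ i j, v i ≠ v j → E (v i) (v j)) → v ∈ Γ l)
    (k : ℕ) [Finite (Orb G (Fin k))] (α β : ℝ) (hα : 0 ≤ α) (hαβ : α ≤ β) (hβ : β ≤ 1)
    (μ : Set (Orb G (Fin k)) → ℝ) (hμ : IsLaw μ) (hA : Abs α β μ) :
    prob μ (fun Θ => ¬ Tractable (tmpl Γ (rel1 G Θ))) ≤ bell k * β := by
  obtain ⟨J, hJ⟩ := h.inf
  obtain ⟨_, hmono, _, hunion⟩ := hPRB.1 _ μ hμ
  refine (hmono _ (fun Θ => ∃ s : Setoid (Fin k), oo G J s ∉ Θ) ?_).trans ?_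
  · intro Θ hΘ
    by_contra hcon
    push Not at hcon
    exact hΘ (tractable_of_all h Γ hΓ hΓE hJ Θ fun s _ => hcon s)
  · exact hunion (Setoid (Fin k)) (fun s Θ => oo G J s ∉ Θ) β
      (fun s => (hPRA _ α β hα hαβ hβ μ hμ hA).1 _)

theorem b2 (hHARD : S_HARD) (hPRA : S_PRA) (hPRB : S_PRB) (h : CliqueType G E) {ι : Type}
    {arΓ : ι → ℕ} (Γ : Str ι arΓ B) (hE1 : PP Γ {v : Fin 2 → B | E (v 0) (v 1)})
    (hE2 : PP Γ {v : Fin 2 → B | v 0 = v 1 ∨ E (v 0) (v 1)})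
    (k : ℕ) (hk : 3 ≤ k) [Finite (Orb G (Fin k))] (α β : ℝ) (hα : 0 ≤ α) (hαβ : α ≤ β) (hβ : β ≤ 1)
    (μ : Set (Orb G (Fin k)) → ℝ) (hμ : IsLaw μ) (hA : Abs α β μ) :
    prob μ (fun Θ => ¬ PPConstructsK3 (tmpl Γ (rel1 G Θ))) ≤
      Real.exp (-(α * (1 - β) ^ 2 * bell (k - 2))) := by
  obtain ⟨J, hJ⟩ := h.inf
  obtain ⟨m, rfl⟩ : ∃ m, k = m + 1 + 2 := ⟨k - 3, by omega⟩
  obtain ⟨_, hmono, _, _⟩ := hPRB.1 _ μ hμ
  have h1 := (hPRA _ α β hα hαβ hβ μ hμ hA).2.2 (Setoid (Fin (m + 1)))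
    (fun w t => oo G J (trip w t)) (by
      intro x y hxy
      exact trip_inj (oo_inj h hJ hxy))
  refine (hmono _ _ ?_).trans h1
  rintro Θ hΘ w ⟨h2, h3, h4⟩
  exact hΘ (hard_of hHARD h Γ hE1 hE2 hJ Θ (base w) 0 1 (Fin.succ (Fin.succ 0)) (base_01 w)
    (base_1s w 0) (base_0s w 0) h2 h3 h4)

/-- the bound for the templates on neither side -/
theorem b3 (hHARD : S_HARD) (hPRA : S_PRA) (hPRB : S_PRB) (h : CliqueType G E) {ι : Type}
    {arΓ : ι → ℕ} (Γ : Str ι arΓ B) (hΓ : ∀ l, Invar G (Γ l))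
    (hΓE : ∀ l (v : Fin (arΓ l) → B), NC v → (∀ i j, v i ≠ v j → E (v i) (v j)) → v ∈ Γ l)
    (hE1 : PP Γ {v : Fin 2 → B | E (v 0) (v 1)})
    (hE2 : PP Γ {v : Fin 2 → B | v 0 = v 1 ∨ E (v 0) (v 1)})
    (k : ℕ) [Finite (Orb G (Fin k))] (α β : ℝ) (hα : 0 ≤ α) (hαβ : α ≤ β) (hβ : β ≤ 1)
    (μ : Set (Orb G (Fin k)) → ℝ) (hμ : IsLaw μ) (hA : Abs α β μ) :
    prob μ (fun Θ => ¬ Tractable (tmpl Γ (rel1 G Θ)) ∧ ¬ PPConstructsK3 (tmpl Γ (rel1 G Θ))) ≤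
      2 ^ k * β + 2 * β ^ 2 * bell k := by
  obtain ⟨J, hJ⟩ := h.inf
  obtain ⟨_, hmono, hor, hunion⟩ := hPRB.1 _ μ hμ
  obtain ⟨hone, htwo, _⟩ := hPRA _ α β hα hαβ hβ μ hμ hA
  let W : Setoid (Fin k) → Prop := fun s => ∃ i0 i1 i2, ¬ s i0 i1 ∧ ¬ s i1 i2 ∧ ¬ s i0 i2
  have hch : ∀ s : Setoid (Fin k), ∃ i : Fin 3 → Fin k ⊕ Unit, W s →
      ∃ a b c, i 0 = Sum.inl a ∧ i 1 = Sum.inl b ∧ i 2 = Sum.inl c ∧ ¬ s a b ∧ ¬ s b c ∧ ¬ s a c := by
    intro s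
    by_cases hs : W s
    · obtain ⟨a, b, c, h1, h2, h3⟩ := hs
      exact ⟨![Sum.inl a, Sum.inl b, Sum.inl c], fun _ => ⟨a, b, c, rfl, rfl, rfl, h1, h2, h3⟩⟩
    · exact ⟨fun _ => Sum.inr (), fun h => absurd h hs⟩
  -- the bad event of one pattern
  have hpat : ∀ s : Setoid (Fin k), ∃ P : Set (Orb G (Fin k)) → Prop,
      prob μ P ≤ 2 * β ^ 2 ∧ ∀ Θ, W s → oo G J s ∉ Θ →
        ¬ PPConstructsK3 (tmpl Γ (rel1 G Θ)) → P Θ := by
    intro s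
    by_cases hs : W s
    · obtain ⟨i0, i1, i2, h01, h12, h02⟩ := hs
      have hne : ∀ i j, ¬ s i j → oo G J s ≠ oo G J (mrg s i j) := by
        intro i j hij heq
        apply hij
        have h1 := oo_inj h hJ heq
        rw [h1, mrg_iff]
        have h2 : ∀ x : Fin k, (mrg s i j) x x := fun x => (mrg s i j).refl x
        exact Or.inr (Or.inl ⟨s.refl i, s.refl j⟩)
      refine ⟨fun Θ => (oo G J s ∉ Θ ∧ oo G J (mrg s i0 i1) ∉ Θ) ∨
        (oo G J s ∉ Θ ∧ oo G J (mrg s i1 i2) ∉ Θ), ?_, ?_⟩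
      · have h1 := htwo _ _ (hne i0 i1 h01)
        have h2 := htwo _ _ (hne i1 i2 h12)
        have h3 := hor (fun Θ => oo G J s ∉ Θ ∧ oo G J (mrg s i0 i1) ∉ Θ)
          (fun Θ => oo G J s ∉ Θ ∧ oo G J (mrg s i1 i2) ∉ Θ)
        linarith
      · intro Θ _ h1 h2
        by_contra hcon
        push Not at hcon
        exact h2 (hard_of hHARD h Γ hE1 hE2 hJ Θ s i0 i1 i2 h01 h12 h02 h1 (hcon.1 h1) (hcon.2 h1))
    · refine ⟨fun _ => ∃ w : Empty, False, ?_, fun Θ h1 => absurd h1 hs⟩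
      have h1 := hunion Empty (fun _ _ => False) 0 (fun w => w.elim)
      have h2 : (0 : ℝ) ≤ β ^ 2 := sq_nonneg β
      simp only [mul_zero] at h1
      linarith
  choose P hP1 hP2 using hpat
  refine (hmono _ (fun Θ => (∃ T : Set (Fin k), oo G J (two T) ∉ Θ) ∨ ∃ s, P s Θ) ?_).trans ?_
  · rintro Θ ⟨h1, h2⟩
    have h3 : ∃ s : Setoid (Fin k), s ≠ ⊤ ∧ oo G J s ∉ Θ := by
      by_contra hcon
      push Not at hcon
      exact h1 (tractable_of_all h Γ hΓ hΓE hJ Θ hcon)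
    obtain ⟨s, hs, hsΘ⟩ := h3
    by_cases hW : W s
    · exact Or.inr ⟨s, hP2 s Θ hW hsΘ h2⟩
    · obtain ⟨T, rfl⟩ := two_of s hs hW
      exact Or.inl ⟨T, hsΘ⟩
  · refine (hor _ _).trans ?_
    have h1 := hunion (Set (Fin k)) (fun T Θ => oo G J (two T) ∉ Θ) β (fun T => hone _)
    have h2 := hunion (Setoid (Fin k)) P (2 * β ^ 2) hP1
    have h3 : (Nat.card (Set (Fin k)) : ℝ) = 2 ^ k := by
      rw [Nat.card_eq_fintype_card, Fintype.card_set, Fintype.card_fin]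
      push_cast
      rfl
    rw [h3] at h1
    have h4 : (Nat.card (Setoid (Fin k)) : ℝ) = bell k := rfl
    rw [h4] at h2
    linarith

theorem uniform (hHARD : S_HARD) (hPRA : S_PRA) (hPRB : S_PRB) (hBLA : S_BLA) (hBLB : S_BLB)
    (hfin : ∀ n, Finite (Orb G (Fin n))) (h : CliqueType G E) {ι : Type}
    {arΓ : ι → ℕ} (Γ : Str ι arΓ B) (hΓ : ∀ l, Invar G (Γ l))
    (hΓE : ∀ l (v : Fin (arΓ l) → B), NC v → (∀ i j, v i ≠ v j → E (v i) (v j)) → v ∈ Γ l)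
    (hE1 : PP Γ {v : Fin 2 → B | E (v 0) (v 1)})
    (hE2 : PP Γ {v : Fin 2 → B | v 0 = v 1 ∨ E (v 0) (v 1)}) (δ : ℝ) (hδ : 0 < δ) :
    ∃ k0 : ℕ, ∀ k : ℕ, k0 ≤ k → ∀ ε : ℝ, 0 ≤ ε → ε ≤ 1 - δ →
      prob (productLaw fun _ : Orb G (Fin k) => 1 - ε) (fun Θ =>
        ¬ Tractable (tmpl Γ (rel1 G Θ)) ∧ ¬ PPConstructsK3 (tmpl Γ (rel1 G Θ))) ≤ δ := by
  obtain ⟨k0, hk0⟩ := hBLB hBLA δ hδ
  refine ⟨max k0 3, fun k hk ε hε hε1 => ?_⟩
  have := hfin k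
  have hε1' : ε ≤ 1 := by linarith
  obtain ⟨hlaw, hAbs⟩ := hPRB.2 (Orb G (Fin k)) ε hε hε1'
  rcases hk0 k ((le_max_left _ _).trans hk) ε hε hε1 with h1 | h1
  · refine le_trans ?_ h1
    have h2 := b2 hHARD hPRA hPRB h Γ hE1 hE2 k ((le_max_right _ _).trans hk) ε ε hε le_rfl hε1' _
      hlaw hAbs
    refine ((hPRB.1 _ _ hlaw).2.1 _ _ ?_).trans h2
    exact fun Θ h => h.2
  · exact (b3 hHARD hPRA hPRB h Γ hΓ hΓE hE1 hE2 k ε ε hε le_rfl hε1' _ hlaw hAbs).trans h1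

/-- in a homogeneous structure with relations of arity at most two, symmetric orbits of pairs with
infinite cliques are clique types -/
theorem binary {σ : Type} {arB : σ → ℕ} (har : ∀ s, arB s ≤ 2) (𝔹 : Str σ arB B)
    (h𝔹 : Homogeneous 𝔹) (htr : ∀ a b : B, ∃ g ∈ autGroup 𝔹, g a = b) (E : B → B → Prop)
    (hsymm : ∀ a b, E a b → E b a) (hirr : ∀ a, ¬ E a a)
    (horb : ∀ a b a' b', E a b → E a' b' → ∃ g ∈ autGroup 𝔹, g a = a' ∧ g b = b')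
    (hinf : ∃ J : ℕ → B, ∀ i j, i ≠ j → E (J i) (J j)) : CliqueType (autGroup 𝔹) E := by
  refine ⟨hsymm, hirr, ?_, hinf⟩
  intro n u v hu hv
  have hui : Function.Injective u := by
    intro i j hij
    by_contra hne
    have := hu i j hne
    rw [hij] at this
    exact hirr _ this
  have hvi : Function.Injective v := by
    intro i j hij
    by_contra hne
    have := hv i j hne
    rw [hij] at this
    exact hirr _ this
  refine hom_same h𝔹 u v (fun i j => ⟨fun h => by rw [hui h], fun h => by rw [hvi h]⟩) ?_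
  intro i s
  have key : ∃ g ∈ autGroup 𝔹, ∀ j, g (u (s j)) = v (s j) := by
    have h2 := har i
    by_cases h0 : arB i = 0
    · refine ⟨1, Subgroup.one_mem _, fun j => absurd j.2 (by omega)⟩
    · let p : Fin (arB i) := ⟨0, by omega⟩
      let q : Fin (arB i) := ⟨arB i - 1, by omega⟩
      have hpq : ∀ j : Fin (arB i), j = p ∨ j = q := by
        intro j
        have := j.2
        rcases Nat.eq_zero_or_pos (j : ℕ) with hj | hj
        · exact Or.inl (Fin.ext hj)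
        · exact Or.inr (Fin.ext (by show (j : ℕ) = arB i - 1; omega))
      by_cases hs : s p = s q
      · obtain ⟨g, hg, h1⟩ := htr (u (s p)) (v (s p))
        refine ⟨g, hg, fun j => ?_⟩
        rcases hpq j with rfl | rfl
        · exact h1
        · rw [← hs]
          exact h1
      · obtain ⟨g, hg, h1, h3⟩ := horb _ _ _ _ (hu _ _ hs) (hv _ _ hs)
        refine ⟨g, hg, fun j => ?_⟩
        rcases hpq j with rfl | rfl
        · exact h1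
        · exact h3
  obtain ⟨g, hg, h1⟩ := key
  have h3 : (v ∘ s) = fun j => g ((u ∘ s) j) := by
    funext j
    exact (h1 j).symm
  rw [h3]
  exact hg i (u ∘ s)

end Pool.Agent.U540.PT
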