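import Pool.Agent.U540.PT.Asm
import Pool.Agent.U540.BP.Grid

/-!
# Example: clique types of the grid; PPDef
-/

set_option autoImplicit false

namespace Pool.Agent.U540.PT

open Pool.Agent.W994.AR Pool.Agent.U540.BP

theorem toPP {B ι : Type} {ar : ι → ℕ} {𝔸 : Str ι ar B} {V : Type} {S : Set (V → B)}
    (h : PPDef 𝔸 S) : PP 𝔸 S := by
  obtain ⟨q, Φ, h⟩ := h
  exact ⟨Fin q, inferInstance, {φ | φ ∈ Φ}, Φ.finite_toSet, h⟩

/-- the pairs of distinct points of `ℕ ^ N` which agree exactly in the coordinates from `T` -/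
def gridType (N : ℕ) (T : Finset (Fin N)) (x y : Fin N → ℕ) : Prop :=
  x ≠ y ∧ ∀ c, x c = y c ↔ c ∈ T

theorem grid_cliqueType (N : ℕ) (T : Finset (Fin N)) (hT : T ≠ Finset.univ) :
    CliqueType (autGroup (grid N)) (gridType N T) := by
  refine binary (fun _ => le_rfl) (grid N) (grid_homogeneous N) (grid_trans N) _ ?_ ?_ ?_ ?_
  · rintro a b ⟨h1, h2⟩
    exact ⟨h1.symm, fun c => ⟨fun h => (h2 c).1 h.symm, fun h => ((h2 c).2 h).symm⟩⟩
  · rintro a ⟨h1, _⟩
    exact h1 rfl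
  · rintro a b a' b' ⟨h1, h2⟩ ⟨h3, h4⟩
    obtain ⟨g, hg, h⟩ := hom_same (grid_homogeneous N) (![a, b] : Fin 2 → Fin N → ℕ) ![a', b'] (by
      intro i j
      fin_cases i <;> fin_cases j
      · exact ⟨fun _ => rfl, fun _ => rfl⟩
      · exact ⟨fun h => absurd h h1, fun h => absurd h h3⟩
      · exact ⟨fun h => absurd h.symm h1, fun h => absurd h.symm h3⟩
      · exact ⟨fun _ => rfl, fun _ => rfl⟩) (by
      intro c s
      have key : ∀ i j : Fin 2, ((![a, b] : Fin 2 → Fin N → ℕ) i c = (![a, b] : Fin 2 → Fin N → ℕ) j c ↔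
          (![a', b'] : Fin 2 → Fin N → ℕ) i c = (![a', b'] : Fin 2 → Fin N → ℕ) j c) := by
        intro i j
        fin_cases i <;> fin_cases j
        · exact ⟨fun _ => rfl, fun _ => rfl⟩
        · exact (h2 c).trans (h4 c).symm
        · exact ⟨fun h => ((h4 c).2 ((h2 c).1 h.symm)).symm,
            fun h => ((h2 c).2 ((h4 c).1 h.symm)).symm⟩
        · exact ⟨fun _ => rfl, fun _ => rfl⟩
      exact key (s 0) (s 1))
    exact ⟨g, hg, h 0, h 1⟩
  · obtain ⟨c0, hc0⟩ : ∃ c, c ∉ T := by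
      by_contra hcon
      push Not at hcon
      exact hT (Finset.eq_univ_iff_forall.2 hcon)
    refine ⟨fun m c => if c ∈ T then 0 else m, ?_⟩
    intro i j hij
    refine ⟨fun h => hij ?_, fun c => ?_⟩
    · have := congrFun h c0
      simpa [hc0] using this
    · by_cases hc : c ∈ T <;> simp [hc, hij]

end Pool.Agent.U540.PT
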