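import Pool.Agent.U540.PT.Stm

/-!
# Patterns of clique tuples
-/

set_option autoImplicit false

namespace Pool.Agent.U540.PT

open Pool.Agent.W994.AR Pool.Agent.U540.BP

variable {B : Type}

/-- `E` is a symmetric irreflexive type of pairs with an infinite clique, and the cliques of each
finite size are all in one orbit. -/
structure CliqueType (G : Subgroup (Equiv.Perm B)) (E : B → B → Prop) : Prop where
  symm : ∀ a b, E a b → E b a
  irrefl : ∀ a, ¬ E a a
  hom : ∀ (n : ℕ) (u v : Fin n → B), (∀ i j, i ≠ j → E (u i) (u j)) →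
    (∀ i j, i ≠ j → E (v i) (v j)) → Same G u v
  inf : ∃ J : ℕ → B, ∀ i j, i ≠ j → E (J i) (J j)

/-- the relation given by a set of orbits -/
def rel1 (G : Subgroup (Equiv.Perm B)) {k : ℕ} (Θ : Set (Orb G (Fin k))) : Set (Fin k → B) :=
  {v | Quotient.mk (orb G (Fin k)) v ∈ Θ}

theorem rel1_invar (G : Subgroup (Equiv.Perm B)) {k : ℕ} (Θ : Set (Orb G (Fin k))) :
    Invar G (rel1 G Θ) := by
  intro g hg v hv
  have : (Quotient.mk (orb G (Fin k)) v) = Quotient.mk (orb G (Fin k)) (fun i => g (v i)) :=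
    Quotient.sound (⟨g, hg, fun _ => rfl⟩ : Same G v (fun i => g (v i)))
  show Quotient.mk (orb G (Fin k)) (fun i => g (v i)) ∈ Θ
  rw [← this]
  exact hv

variable {G : Subgroup (Equiv.Perm B)} {E : B → B → Prop}

theorem CliqueType.homX (h : CliqueType G E) {X : Type} [Finite X] (u v : X → B)
    (hu : ∀ i j, i ≠ j → E (u i) (u j)) (hv : ∀ i j, i ≠ j → E (v i) (v j)) : Same G u v := by
  obtain ⟨n, ⟨e⟩⟩ := Finite.exists_equiv_fin X
  obtain ⟨g, hg, h1⟩ := h.hom n (u ∘ e.symm) (v ∘ e.symm)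
    (fun i j hij => hu _ _ (fun h => hij (e.symm.injective h)))
    (fun i j hij => hv _ _ (fun h => hij (e.symm.injective h)))
  refine ⟨g, hg, fun i => ?_⟩
  have := h1 (e i)
  simpa using this

/-- clique tuples with the kernel `s` -/
def CT (E : B → B → Prop) {k : ℕ} (s : Setoid (Fin k)) (v : Fin k → B) : Prop :=
  (∀ i j, v i = v j ↔ s i j) ∧ ∀ i j, v i ≠ v j → E (v i) (v j)

theorem ct_same (h : CliqueType G E) {k : ℕ} {s : Setoid (Fin k)} {v w : Fin k → B}
    (hv : CT E s v) (hw : CT E s w) : Same G v w := by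
  let e : Quotient s → B := Quotient.lift v fun a b hab => (hv.1 a b).2 hab
  let e' : Quotient s → B := Quotient.lift w fun a b hab => (hw.1 a b).2 hab
  obtain ⟨g, hg, h1⟩ := h.homX e e' (by
    intro a b
    refine Quotient.inductionOn₂ a b fun i j hij => ?_
    exact hv.2 i j fun h2 => hij (Quotient.sound ((hv.1 i j).1 h2))) (by
    intro a b
    refine Quotient.inductionOn₂ a b fun i j hij => ?_
    exact hw.2 i j fun h2 => hij (Quotient.sound ((hw.1 i j).1 h2)))
  exact ⟨g, hg, fun i => h1 (Quotient.mk s i)⟩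

/-- the standard clique tuple with the kernel `s` -/
noncomputable def tup (J : ℕ → B) {k : ℕ} (s : Setoid (Fin k)) : Fin k → B :=
  fun i => J ((Quotient.mk s i).out : Fin k)

theorem tup_ct {J : ℕ → B} (hirr : ∀ a, ¬ E a a) (hJ : ∀ i j, i ≠ j → E (J i) (J j)) {k : ℕ}
    (s : Setoid (Fin k)) : CT E s (tup J s) := by
  have hinj : ∀ i j : ℕ, J i = J j → i = j := by
    intro i j hij
    by_contra h
    have h1 := hJ i j h
    rw [hij] at h1
    exact hirr _ h1
  constructor
  · intro i j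
    constructor
    · intro h
      have h1 := Fin.ext (hinj _ _ h)
      have h2 : Quotient.mk s i = Quotient.mk s j := by
        rw [← Quotient.out_eq (Quotient.mk s i), h1, Quotient.out_eq]
      exact Quotient.exact h2
    · intro h
      have h2 : Quotient.mk s i = Quotient.mk s j := Quotient.sound h
      show J _ = J _
      rw [h2]
  · intro i j hij
    exact hJ _ _ fun h => hij (congrArg J h)

/-- the orbit of the clique tuples with the kernel `s` -/
noncomputable def oo (G : Subgroup (Equiv.Perm B)) (J : ℕ → B) {k : ℕ} (s : Setoid (Fin k)) :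
    Orb G (Fin k) := Quotient.mk (orb G (Fin k)) (tup J s)

theorem mk_eq (h : CliqueType G E) {J : ℕ → B} (hJ : ∀ i j, i ≠ j → E (J i) (J j)) {k : ℕ}
    {s : Setoid (Fin k)} {v : Fin k → B} (hv : CT E s v) :
    Quotient.mk (orb G (Fin k)) v = oo G J s :=
  Quotient.sound (ct_same h hv (tup_ct h.irrefl hJ s) : Same G v (tup J s))

theorem oo_inj (h : CliqueType G E) {J : ℕ → B} (hJ : ∀ i j, i ≠ j → E (J i) (J j)) {k : ℕ}
    {s s' : Setoid (Fin k)} (hs : oo G J s = oo G J s') : s = s' := by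
  obtain ⟨g, _, hg⟩ : Same G (tup J s) (tup J s') := Quotient.exact hs
  ext i j
  rw [← (tup_ct h.irrefl hJ s).1 i j, ← (tup_ct h.irrefl hJ s').1 i j, ← hg i, ← hg j]
  exact g.injective.eq_iff.symm

/-- the template with the relations of `Γ` and `R` -/
abbrev tmpl {ι : Type} {arΓ : ι → ℕ} (Γ : Str ι arΓ B) {k : ℕ} (R : Set (Fin k → B)) :
    Str (ι ⊕ Fin 1) (Sum.elim arΓ fun _ => k) B :=
  expand Γ (τ := Fin 1) (k := fun _ => k) (fun _ => R)

theorem tractable_of_all (h : CliqueType G E) {ι : Type} {arΓ : ι → ℕ} (Γ : Str ι arΓ B)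
    (hΓ : ∀ l, Invar G (Γ l))
    (hΓE : ∀ l (v : Fin (arΓ l) → B), NC v → (∀ i j, v i ≠ v j → E (v i) (v j)) → v ∈ Γ l)
    {J : ℕ → B} (hJ : ∀ i j, i ≠ j → E (J i) (J j)) {k : ℕ} (Θ : Set (Orb G (Fin k)))
    (hΘ : ∀ s : Setoid (Fin k), s ≠ ⊤ → oo G J s ∈ Θ) : Tractable (tmpl Γ (rel1 G Θ)) := by
  have hinj : Function.Injective J := by
    intro i j hij
    by_contra h2
    have h1 := hJ i j h2
    rw [hij] at h1
    exact h.irrefl _ h1
  have hE : ∀ {n : ℕ} (v : Fin n → B), (∀ j, v j ∈ Set.range J) → ∀ i j, v i ≠ v j → E (v i) (v j) := by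
    intro n v hv i j hij
    obtain ⟨a, ha⟩ := hv i
    obtain ⟨b, hb⟩ := hv j
    rw [← ha, ← hb] at hij ⊢
    exact hJ _ _ fun h => hij (congrArg J h)
  refine tractable_of_free (I := Set.range J) ⟨?_, ?_⟩
  · rintro (l | l) v hv hvI
    · exact hΓE l v hv (hE v hvI)
    · have hct : CT E (Setoid.ker v) v := ⟨fun i j => Iff.rfl, hE v hvI⟩
      have h3 : Quotient.mk (orb G (Fin k)) v = oo G J (k := k) (Setoid.ker v) :=
        mk_eq (k := k) h hJ hct
      have h4 : oo G J (k := k) (Setoid.ker v) ∈ Θ := by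
        apply hΘ
        intro htop
        obtain ⟨i, j, hij⟩ := hv
        apply hij
        have : (Setoid.ker v) i j := by
          have h5 : (⊤ : Setoid (Fin k)) i j := trivial
          rw [← htop] at h5
          exact h5
        exact this
      rw [← h3] at h4
      exact h4
  · intro b
    refine (Set.infinite_range_of_injective hinj).mono ?_
    rintro a ha
    refine ⟨ha, ?_⟩
    intro i hi
    obtain ⟨g, hg, h1⟩ := h.hom 1 (fun _ => b) (fun _ => a)
      (fun i j hij => absurd (Subsingleton.elim i j) hij)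
      (fun i j hij => absurd (Subsingleton.elim i j) hij)
    have h2 : g b = a := h1 0
    cases i with
    | inl l =>
      have := hΓ l g hg _ hi
      simp only [h2] at this
      exact this
    | inr l =>
      have := rel1_invar G Θ g hg _ hi
      simp only [h2] at this
      exact this

/-- merging the classes of `i` and `j` -/
noncomputable def mrg {k : ℕ} (s : Setoid (Fin k)) (i j : Fin k) : Setoid (Fin k) :=
  open scoped Classical in
  Setoid.ker fun a => if Quotient.mk s a = Quotient.mk s i then Quotient.mk s j else Quotient.mk s a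

theorem mrg_iff {k : ℕ} (s : Setoid (Fin k)) (i j a b : Fin k) :
    mrg s i j a b ↔ s a b ∨ (s a i ∧ s b j) ∨ (s a j ∧ s b i) := by
  classical
  have hmk : ∀ x y : Fin k, Quotient.mk s x = Quotient.mk s y ↔ s x y := fun x y => Quotient.eq
  have h1 : mrg s i j a b ↔ (if Quotient.mk s a = Quotient.mk s i then Quotient.mk s j
      else Quotient.mk s a) = (if Quotient.mk s b = Quotient.mk s i then Quotient.mk s j
      else Quotient.mk s b) := by
    unfold mrg
    rw [Setoid.ker_def]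
  rw [h1]
  split_ifs with ha hb hb
  · rw [hmk] at ha hb
    exact ⟨fun _ => Or.inl (s.trans ha (s.symm hb)), fun _ => rfl⟩
  · rw [hmk] at ha hb ⊢
    constructor
    · intro h2
      exact Or.inr (Or.inl ⟨ha, s.symm h2⟩)
    · rintro (h2 | h2 | h2)
      · exact absurd (s.trans (s.symm h2) ha) hb
      · exact s.symm h2.2
      · exact absurd h2.2 hb
  · rw [hmk] at ha hb ⊢
    constructor
    · intro h2
      exact Or.inr (Or.inr ⟨h2, hb⟩)
    · rintro (h2 | h2 | h2)
      · exact absurd (s.trans h2 hb) ha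
      · exact absurd h2.1 ha
      · exact h2.1
  · rw [hmk] at ha hb ⊢
    constructor
    · intro h2
      exact Or.inl h2
    · rintro (h2 | h2 | h2)
      · exact h2
      · exact absurd h2.1 ha
      · exact absurd h2.2 hb

/-- atoms of the reduct -/
def liftAtom {ι : Type} {arΓ : ι → ℕ} {k : ℕ} {V : Type} :
    Atom ι arΓ V → Atom (ι ⊕ Fin 1) (Sum.elim arΓ fun _ => k) V
  | .eq x y => .eq x y
  | .rel i x => .rel (Sum.inl i) x

theorem PP_tmpl {ι : Type} {arΓ : ι → ℕ} {Γ : Str ι arΓ B} {k : ℕ} (R : Set (Fin k → B)) {V : Type}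
    {S : Set (V → B)} (hS : PP Γ S) : PP (tmpl Γ R) S := by
  obtain ⟨W, hW, Φ, hΦ, h⟩ := hS
  refine ⟨W, hW, liftAtom '' Φ, hΦ.image _, ?_⟩
  have key : ∀ (φ : Atom ι arΓ (V ⊕ W)) (e : V ⊕ W → B),
      (liftAtom (k := k) φ).Holds (tmpl Γ R) e ↔ φ.Holds Γ e := by
    intro φ e
    cases φ <;> rfl
  intro v
  rw [h v]
  constructor
  · rintro ⟨u, hu⟩
    refine ⟨u, ?_⟩
    rintro φ ⟨ψ, hψ, rfl⟩
    exact (key ψ _).2 (hu ψ hψ)
  · rintro ⟨u, hu⟩
    exact ⟨u, fun ψ hψ => (key ψ _).1 (hu _ ⟨ψ, hψ, rfl⟩)⟩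

theorem PP_R {ι : Type} {arΓ : ι → ℕ} {Γ : Str ι arΓ B} {k : ℕ} (R : Set (Fin k → B)) :
    PP (tmpl Γ R) R :=
  PP.rel (𝔸 := tmpl Γ R) (Sum.inr 0) (fun j : Fin k => j)

theorem hard_of (hHARD : S_HARD) (h : CliqueType G E) {ι : Type} {arΓ : ι → ℕ} (Γ : Str ι arΓ B)
    (hE1 : PP Γ {v : Fin 2 → B | E (v 0) (v 1)})
    (hE2 : PP Γ {v : Fin 2 → B | v 0 = v 1 ∨ E (v 0) (v 1)})
    {J : ℕ → B} (hJ : ∀ i j, i ≠ j → E (J i) (J j)) {k : ℕ} (Θ : Set (Orb G (Fin k)))
    (s : Setoid (Fin k)) (i0 i1 i2 : Fin k) (h01 : ¬ s i0 i1) (h12 : ¬ s i1 i2) (h02 : ¬ s i0 i2)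
    (hs : oo G J s ∉ Θ) (hs1 : oo G J (mrg s i0 i1) ∈ Θ) (hs2 : oo G J (mrg s i1 i2) ∈ Θ) :
    PPConstructsK3 (tmpl Γ (rel1 G Θ)) := by
  have hmk : ∀ x y : Fin k, Quotient.mk s x = Quotient.mk s y ↔ s x y := fun x y => Quotient.eq
  have hmrg : ∀ (i j : Fin k) (e : Quotient s → B), ¬ s i j →
      e (Quotient.mk s i) = e (Quotient.mk s j) →
      (∀ a b, a ≠ b → ¬ (a = Quotient.mk s i ∧ b = Quotient.mk s j) →
        ¬ (a = Quotient.mk s j ∧ b = Quotient.mk s i) → E (e a) (e b)) →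
      CT E (mrg s i j) (e ∘ Quotient.mk s) := by
    intro i j e hij he hE
    have h1 : ∀ a b : Fin k, e (Quotient.mk s a) = e (Quotient.mk s b) ↔ mrg s i j a b := by
      intro a b
      rw [mrg_iff]
      constructor
      · intro h2
        by_contra h3
        push Not at h3
        obtain ⟨h4, h5, h6⟩ := h3
        have h7 := hE (Quotient.mk s a) (Quotient.mk s b) (fun h => h4 ((hmk _ _).1 h))
          (fun h => h5 ((hmk _ _).1 h.1) ((hmk _ _).1 h.2))
          (fun h => h6 ((hmk _ _).1 h.1) ((hmk _ _).1 h.2))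
        rw [h2] at h7
        exact h.irrefl _ h7
      · rintro (h2 | h2 | h2)
        · rw [(hmk _ _).2 h2]
        · rw [(hmk _ _).2 h2.1, (hmk _ _).2 h2.2, he]
        · rw [(hmk _ _).2 h2.1, (hmk _ _).2 h2.2, he]
    refine ⟨h1, fun a b hab => ?_⟩
    have h2 : ¬ mrg s i j a b := fun h3 => hab ((h1 a b).2 h3)
    rw [mrg_iff] at h2
    push Not at h2
    obtain ⟨h4, h5, h6⟩ := h2
    exact hE (Quotient.mk s a) (Quotient.mk s b) (fun h => h4 ((hmk _ _).1 h))
      (fun h => h5 ((hmk _ _).1 h.1) ((hmk _ _).1 h.2))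
      (fun h => h6 ((hmk _ _).1 h.1) ((hmk _ _).1 h.2))
  refine hHARD B _ _ (tmpl Γ (rel1 G Θ)) E h.symm h.irrefl (PP_tmpl _ hE1) (PP_tmpl _ hE2) J hJ k
    (rel1 G Θ) (PP_R _) (Quotient s) (Quotient.mk s) (Quotient.mk s i0) (Quotient.mk s i1)
    (Quotient.mk s i2) (fun h => h01 ((hmk _ _).1 h)) (fun h => h12 ((hmk _ _).1 h))
    (fun h => h02 ((hmk _ _).1 h)) ?_ ?_ ?_
  · intro e he hmem
    have hct : CT E s (e ∘ Quotient.mk s) := by
      have h1 : ∀ a b : Fin k, e (Quotient.mk s a) = e (Quotient.mk s b) ↔ s a b := by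
        intro a b
        constructor
        · intro h2
          by_contra h3
          have h7 := he (Quotient.mk s a) (Quotient.mk s b) (fun h => h3 ((hmk _ _).1 h))
          rw [h2] at h7
          exact h.irrefl _ h7
        · intro h2
          rw [(hmk _ _).2 h2]
      refine ⟨h1, fun a b hab => he _ _ fun h2 => hab ?_⟩
      show e _ = e _
      rw [h2]
    have h1 : oo G J s ∈ Θ := by
      rw [← mk_eq h hJ hct]
      exact hmem
    exact hs h1
  · intro e he hE
    show Quotient.mk (orb G (Fin k)) (e ∘ Quotient.mk s) ∈ Θ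
    rw [mk_eq h hJ (hmrg i0 i1 e h01 he hE)]
    exact hs1
  · intro e he hE
    show Quotient.mk (orb G (Fin k)) (e ∘ Quotient.mk s) ∈ Θ
    rw [mk_eq h hJ (hmrg i1 i2 e h12 he hE)]
    exact hs2

end Pool.Agent.U540.PT
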