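import Pool.Agent.U540.BP.Count

/-!
# Project PT: statements

The dichotomy of Bodirsky and Pinsker for random templates of EVERY density, with the threshold
`1 / Bell(k)`. Let `E` be a symmetric type of pairs with homogeneous cliques and an infinite clique, and
let `R` be a random invariant relation of arity `k`, which misses every orbit with probability `ε`. If no
orbit of nonconstant clique tuples is missing, then the template is tractable (`Pool.Agent.U540.BP.Free`).
If such an orbit with at least three values is missing and two of the orbits which arise by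
identification of two values are present, then the template pp-constructs `K_3` (statement `S_HARD`).
-/

set_option autoImplicit false

namespace Pool.Agent.U540.PT

open Pool.Agent.W994.AR Pool.Agent.U540.BP
open Pool.Agent.N455.CS (IsLaw prob productLaw)

/-- **Package HARD.** `E` is a symmetric irreflexive binary relation, `E` and its reflexive closure are pp-definable in
`𝔸`, there is an infinite clique `J`, and `R` is pp-definable. The pattern `c` with values in `X` is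
missing in `R` for all cliques `e : X → B`, but it is present if the values `x0` and `x1` are identified, and also
if the values `x1` and `x2` are identified.

Proof. Let `S (x, y, z)` say: there is `e : X → B` with `e x0 = x`, `e x1 = y`, `e x2 = z`, `e ∘ c ∈ R`, such that
`e x0 = e x1 ∨ E (e x0) (e x1)`, `e x1 = e x2 ∨ E (e x1) (e x2)`, and `E (e a) (e b)` for all other pairs
`a ≠ b`. `S` is pp-definable (`PP.ex`, `PP.iInter`, `PP.subst`). `S (x, y, z)` implies `E x z` and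
(`y = x` or `y = z`): otherwise `e` would be a clique. And `S (J a, J a, J b)`, `S (J a, J b, J b)` hold for
`a ≠ b` (use large elements of `J` for the other elements of `X`). Now consider the relation between
`(p, q, r, y)` and `(p', q', r', y')`: `p = p'`, `q = q'`, `r = r'`, `E y y'`,
`∃ w, S (p, w, q) ∧ S (w, y, r)`, `∃ w', S (p, w', q) ∧ S (w', y', r)`.
It contains the pairs `(J 0, J 1, J 2, J i)`, `(J 0, J 1, J 2, J j)` for `i ≠ j` in `{0, 1, 2}`
(`w = J 0` for `i = 0`, `w = J 1` for `i = 1`, `w = J 0` for `i = 2`), and it implies `y ∈ {p, q, r}`,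
`y' ∈ {p, q, r}` and `y ≠ y'`, so `g (p, q, r, y) = 0` if `y = p`, else `1` if `y = q`, else `2`, is a
homomorphism to `K_3`. -/
def S_HARD : Prop :=
  ∀ (B ι : Type) (ar : ι → ℕ) (𝔸 : Str ι ar B) (E : B → B → Prop),
    (∀ a b, E a b → E b a) → (∀ a, ¬ E a a) →
    PP 𝔸 {v : Fin 2 → B | E (v 0) (v 1)} → PP 𝔸 {v : Fin 2 → B | v 0 = v 1 ∨ E (v 0) (v 1)} →
    ∀ J : ℕ → B, (∀ i j, i ≠ j → E (J i) (J j)) →
    ∀ (k : ℕ) (R : Set (Fin k → B)), PP 𝔸 R →
    ∀ (X : Type) [Finite X] (c : Fin k → X) (x0 x1 x2 : X), x0 ≠ x1 → x1 ≠ x2 → x0 ≠ x2 →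
    (∀ e : X → B, (∀ a b, a ≠ b → E (e a) (e b)) → e ∘ c ∉ R) →
    (∀ e : X → B, e x0 = e x1 →
      (∀ a b, a ≠ b → ¬ (a = x0 ∧ b = x1) → ¬ (a = x1 ∧ b = x0) → E (e a) (e b)) → e ∘ c ∈ R) →
    (∀ e : X → B, e x1 = e x2 →
      (∀ a b, a ≠ b → ¬ (a = x1 ∧ b = x2) → ¬ (a = x2 ∧ b = x1) → E (e a) (e b)) → e ∘ c ∈ R) →
    PPConstructsK3 𝔸

/-- Given all the other elements, every `o` is absent with conditional probability in `[α, β]`. -/
def Abs {Ω : Type} (α β : ℝ) (μ : Set Ω → ℝ) : Prop :=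
  ∀ (Θ : Set Ω) (o : Ω), α * (μ (insert o Θ) + μ (Θ \ {o})) ≤ μ (Θ \ {o}) ∧
    μ (Θ \ {o}) ≤ β * (μ (insert o Θ) + μ (Θ \ {o}))

/-- **Package PRA.** Bounds for laws with absence probabilities in `[α, β]`.
(1) one absent element; (2) two absent elements; (3) disjoint triples of elements: with
small probability none of them has the first one absent and the other two present.

Hints. Copy the proofs of `toggle`, `block`, `wcount` in `Pool/Agent/N455/CS/Wt.lean` (do not edit that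
file), where now the two toggle inequalities have different constants: `α` for `o ∉ R` and `1 - β` for
`o ∈ R` (from the second inequality of `Abs`), and use `Pool/Agent/N455/CS/Law.lean` (`prob_eq`, `prob_le`,
`IsLaw.sum`) for the passage to sums over `Finset (Finset Ω)`. `1 - x ≤ exp (-x)` is
`Real.one_sub_le_exp_neg`. -/
def S_PRA : Prop :=
  ∀ (Ω : Type) [Finite Ω] (α β : ℝ), 0 ≤ α → α ≤ β → β ≤ 1 → ∀ μ : Set Ω → ℝ, IsLaw μ → Abs α β μ →
    (∀ o, prob μ (fun Θ => o ∉ Θ) ≤ β) ∧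
    (∀ o o', o ≠ o' → prob μ (fun Θ => o ∉ Θ ∧ o' ∉ Θ) ≤ β ^ 2) ∧
    (∀ (κ : Type) [Finite κ] (f : κ → Fin 3 → Ω), (Function.Injective fun x : κ × Fin 3 => f x.1 x.2) →
      prob μ (fun Θ => ∀ w, ¬ (f w 0 ∉ Θ ∧ f w 1 ∈ Θ ∧ f w 2 ∈ Θ)) ≤
        Real.exp (-(α * (1 - β) ^ 2 * Nat.card κ)))

/-- **Package PRB.** Monotonicity, the union bound, and the product law.
Hints: `prob_eq`, `prob_le`, `IsLaw.sum`, `product_law` (with `ε = 0`) in `Pool/Agent/N455/CS/Law.lean`. -/
def S_PRB : Prop :=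
  (∀ (Ω : Type) [Finite Ω] (μ : Set Ω → ℝ), IsLaw μ →
    (∀ P : Set Ω → Prop, 0 ≤ prob μ P ∧ prob μ P ≤ 1) ∧
    (∀ P Q : Set Ω → Prop, (∀ Θ, P Θ → Q Θ) → prob μ P ≤ prob μ Q) ∧
    (∀ P Q : Set Ω → Prop, prob μ (fun Θ => P Θ ∨ Q Θ) ≤ prob μ P + prob μ Q) ∧
    (∀ (κ : Type) [Finite κ] (P : κ → Set Ω → Prop) (b : ℝ), (∀ w, prob μ (P w) ≤ b) →
      prob μ (fun Θ => ∃ w, P w Θ) ≤ Nat.card κ * b)) ∧
  (∀ (Ω : Type) [Finite Ω] (ε : ℝ), 0 ≤ ε → ε ≤ 1 →
    IsLaw (productLaw (fun _ : Ω => 1 - ε)) ∧ Abs ε ε (productLaw (fun _ : Ω => 1 - ε)))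

/-- The Bell numbers. -/
noncomputable def bell (k : ℕ) : ℕ := Nat.card (Setoid (Fin k))

/-- **Package BLA.**
(1) A setoid on `Fin (k+1)` is determined by its restriction to `Fin k` (castSucc) and by one element equivalent
to the last one (`Fin.last k` itself if there is no other one).
(2) Injection `(Fin k → Fin 16) → Setoid (Fin (k+16))`: the kernel of the map which is the given one on the first
`k` elements and the identity on the last 16 elements. -/
def S_BLA : Prop :=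
  (∀ k, bell (k + 1) ≤ (k + 1) * bell k) ∧ (∀ k, 16 ^ k ≤ bell (k + 16))

/-- **Package BLB.**
Let `b = bell (k-2)`, so `bell k ≤ k ^ 2 * b` by (1) of `S_BLA`, and `b ≥ 16 ^ (k-18)` by (2). If
`ε ≥ b ^ (-3/4)`, the exponential is at most `exp (- δ ^ 2 * b ^ (1/4))` (as `1 - ε ≥ δ`). If
`ε < b ^ (-3/4)`, then `2 ^ k * ε ≤ 2 ^ k * b ^ (-3/4) ≤ 2 ^ k * 8 ^ (-(k-18))` and
`2 * ε ^ 2 * bell k ≤ 2 * k ^ 2 * b ^ (-1/2) ≤ 2 * k ^ 2 * 4 ^ (-(k-18))`. All these bounds tend to `0`. -/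
def S_BLB : Prop :=
  S_BLA → ∀ δ : ℝ, 0 < δ → ∃ k0 : ℕ, ∀ k : ℕ, k0 ≤ k → ∀ ε : ℝ, 0 ≤ ε → ε ≤ 1 - δ →
    Real.exp (-(ε * (1 - ε) ^ 2 * bell (k - 2))) ≤ δ ∨
      2 ^ k * ε + 2 * ε ^ 2 * bell k ≤ δ

end Pool.Agent.U540.PT
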