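import Pool.Agent.U540.PT.Pat

/-!
# Disjoint triples of patterns; patterns with two values
-/

set_option autoImplicit false

namespace Pool.Agent.U540.PT

open Pool.Agent.W994.AR Pool.Agent.U540.BP

instance finite_setoid_fin (k : ℕ) : Finite (Setoid (Fin k)) :=
  Finite.of_injective (fun (s : Setoid (Fin k)) (i j : Fin k) => s i j) fun s t h => by
    ext i j
    exact iff_of_eq (congrFun (congrFun h i) j)

/-- the elements `0` and `1` are alone, the others are divided as in `w` -/
def base {n : ℕ} (w : Setoid (Fin n)) : Setoid (Fin (n + 2)) :=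
  Setoid.ker (Fin.cases (motive := fun _ => Option (Option (Quotient w))) none
    (Fin.cases (motive := fun _ => Option (Option (Quotient w))) (some none)
      fun i => some (some (Quotient.mk w i))))

theorem base_ss {n : ℕ} (w : Setoid (Fin n)) (i j : Fin n) :
    base w i.succ.succ j.succ.succ ↔ w i j := by
  unfold base
  rw [Setoid.ker_def]
  simp only [Fin.cases_succ, Option.some.injEq]
  exact Quotient.eq

theorem base_0s {n : ℕ} (w : Setoid (Fin n)) (i : Fin n) : ¬ base w 0 i.succ.succ := by
  unfold base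
  rw [Setoid.ker_def]
  simp

theorem base_1s {n : ℕ} (w : Setoid (Fin n)) (i : Fin n) : ¬ base w 1 i.succ.succ := by
  intro h
  have h' : (some none : Option (Option (Quotient w))) = some (some (Quotient.mk w i)) := h
  simp at h'

theorem base_01 {n : ℕ} (w : Setoid (Fin n)) : ¬ base w 0 1 := by
  intro h
  have h' : (none : Option (Option (Quotient w))) = some none := h
  simp at h'

/-- the three patterns of the triple -/
noncomputable def trip {m : ℕ} (w : Setoid (Fin (m + 1))) : Fin 3 → Setoid (Fin (m + 1 + 2)) :=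
  ![base w, mrg (base w) 0 1, mrg (base w) 1 (Fin.succ (Fin.succ 0))]

theorem trip_ss {m : ℕ} (w : Setoid (Fin (m + 1))) (t : Fin 3) (i j : Fin (m + 1)) :
    trip w t i.succ.succ j.succ.succ ↔ w i j := by
  have hs : ∀ {a b}, base w a b → base w b a := fun h => (base w).symm h
  fin_cases t
  · exact base_ss w i j
  · show mrg (base w) 0 1 _ _ ↔ _
    rw [mrg_iff, base_ss]
    constructor
    · rintro (h | h | h)
      · exact h
      · exact absurd (hs h.1) (base_0s w i)
      · exact absurd (hs h.1) (base_1s w i)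
    · exact Or.inl
  · show mrg (base w) 1 _ _ _ ↔ _
    rw [mrg_iff, base_ss]
    constructor
    · rintro (h | h | h)
      · exact h
      · exact absurd (hs h.1) (base_1s w i)
      · exact absurd (hs h.2) (base_1s w j)
    · exact Or.inl

theorem trip_01 {m : ℕ} (w : Setoid (Fin (m + 1))) (t : Fin 3) : trip w t 0 1 ↔ t = 1 := by
  have hs : ∀ {a b}, base w a b → base w b a := fun h => (base w).symm h
  fin_cases t
  · exact ⟨fun h => absurd h (base_01 w), fun h => absurd h (by decide)⟩
  · show mrg (base w) 0 1 _ _ ↔ _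
    rw [mrg_iff]
    exact ⟨fun _ => rfl, fun _ => Or.inr (Or.inl ⟨(base w).refl 0, (base w).refl 1⟩)⟩
  · show mrg (base w) 1 _ _ _ ↔ _
    rw [mrg_iff]
    constructor
    · rintro (h | h | h)
      · exact absurd h (base_01 w)
      · exact absurd h.1 (base_01 w)
      · exact absurd h.1 (base_0s w 0)
    · intro h
      exact absurd h (by decide)

theorem trip_12 {m : ℕ} (w : Setoid (Fin (m + 1))) (t : Fin 3) :
    trip w t 1 (Fin.succ (Fin.succ 0)) ↔ t = 2 := by
  have hs : ∀ {a b}, base w a b → base w b a := fun h => (base w).symm h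
  fin_cases t
  · exact ⟨fun h => absurd h (base_1s w 0), fun h => absurd h (by decide)⟩
  · show mrg (base w) 0 1 _ _ ↔ _
    rw [mrg_iff]
    constructor
    · rintro (h | h | h)
      · exact absurd h (base_1s w 0)
      · exact absurd (hs h.1) (base_01 w)
      · exact absurd (hs h.2) (base_0s w 0)
    · intro h
      exact absurd h (by decide)
  · show mrg (base w) 1 _ _ _ ↔ _
    rw [mrg_iff]
    exact ⟨fun _ => rfl, fun _ => Or.inr (Or.inl ⟨(base w).refl _, (base w).refl _⟩)⟩

theorem trip_inj {m : ℕ} :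
    Function.Injective fun x : Setoid (Fin (m + 1)) × Fin 3 => trip x.1 x.2 := by
  rintro ⟨w, t⟩ ⟨w', t'⟩ h
  simp only at h
  have h1 : w = w' := by
    ext i j
    rw [← trip_ss w t i j, ← trip_ss w' t' i j, h]
  have h2 : t = 1 ↔ t' = 1 := by
    rw [← trip_01 w t, ← trip_01 w' t', h]
  have h3 : t = 2 ↔ t' = 2 := by
    rw [← trip_12 w t, ← trip_12 w' t', h]
  have h4 : t = t' := by
    fin_cases t <;> fin_cases t' <;> simp_all
  rw [h1, h4]

/-- two classes: in `T` and not in `T` -/
def two {k : ℕ} (T : Set (Fin k)) : Setoid (Fin k) := Setoid.ker fun i => i ∈ T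

theorem two_of {k : ℕ} (s : Setoid (Fin k)) (hs : s ≠ ⊤)
    (h3 : ¬ ∃ i0 i1 i2, ¬ s i0 i1 ∧ ¬ s i1 i2 ∧ ¬ s i0 i2) : ∃ T, s = two T := by
  obtain ⟨a, b, hab⟩ : ∃ a b, ¬ s a b := by
    by_contra hcon
    push Not at hcon
    apply hs
    ext i j
    exact ⟨fun _ => trivial, fun _ => hcon i j⟩
  refine ⟨{i | s i a}, ?_⟩
  ext i j
  unfold two
  rw [Setoid.ker_def]
  simp only [Set.mem_ofPred_eq, eq_iff_iff]
  constructor
  · intro hij
    exact ⟨fun h => s.trans (s.symm hij) h, fun h => s.trans hij h⟩
  · intro hij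
    by_cases hi : s i a
    · exact s.trans hi (s.symm (hij.1 hi))
    · by_contra hne
      exact h3 ⟨i, a, j, hi, fun h => hi (hij.2 (s.symm h)), hne⟩

end Pool.Agent.U540.PT
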